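import Mathlib

/-!
# HN: a map of a compact metric space which preserves distances is surjective; scaling maps on `ℤ_[p]`
-/

set_option autoImplicit false

namespace Pool.Agent.Helper25.HN

open Metric Filter Topology

theorem dist_iterate {X : Type*} [MetricSpace X] {f : X → X} (hf : Isometry f) (n : ℕ) (x y : X) :
    dist (f^[n] x) (f^[n] y) = dist x y := by
  induction n generalizing x y with
  | zero => rfl
  | succ n ih => rw [Function.iterate_succ_apply, Function.iterate_succ_apply, ih, hf.dist_eq]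

theorem surjective_of_isometry {X : Type*} [MetricSpace X] [CompactSpace X] {f : X → X} (hf : Isometry f) :
    Function.Surjective f := by
  intro y
  by_contra hy
  have hc : IsClosed (Set.range f) := (isCompact_range hf.continuous).isClosed
  have hmem : y ∈ (Set.range f)ᶜ := hy
  obtain ⟨ε, hε, hb⟩ := Metric.isOpen_iff.1 hc.isOpen_compl y hmem
  have h1 : ∀ k : ℕ, ε ≤ dist y (f^[k + 1] y) := by
    intro k
    by_contra h
    push Not at h
    have h2 : f^[k + 1] y ∈ ball y ε := by rwa [mem_ball, dist_comm]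
    refine hb h2 ?_
    rw [Function.iterate_succ_apply']
    exact ⟨_, rfl⟩
  have h2 : ∀ n k : ℕ, ε ≤ dist (f^[n] y) (f^[n + (k + 1)] y) := by
    intro n k
    rw [Function.iterate_add_apply, dist_iterate hf]
    exact h1 k
  obtain ⟨a, φ, hφ, ha⟩ := CompactSpace.tendsto_subseq fun n => f^[n] y
  obtain ⟨N, hN⟩ := Metric.cauchySeq_iff.1 ha.cauchySeq ε hε
  have h3 := hN N le_rfl (N + 1) (Nat.le_succ N)
  have h4 : φ N < φ (N + 1) := hφ (Nat.lt_succ_self N)
  obtain ⟨k, hk⟩ := Nat.exists_eq_add_of_lt h4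
  have h5 := h2 (φ N) k
  simp only [Function.comp] at h3
  rw [hk, Nat.add_assoc] at h3
  exact absurd h3 (not_lt.2 h5)

theorem dvd_of_norm_le {p : ℕ} [Fact p.Prime] {a w : ℤ_[p]} (ha : a ≠ 0) (h : ‖w‖ ≤ ‖a‖) : ∃ t, w = a * t := by
  have ha' : (a : ℚ_[p]) ≠ 0 := fun h0 => ha (Subtype.ext h0)
  refine ⟨⟨(w : ℚ_[p]) / a, ?_⟩, ?_⟩
  · rw [norm_div]
    exact (div_le_one (norm_pos_iff.2 ha')).2 h
  · apply Subtype.ext
    rw [PadicInt.coe_mul]
    field_simp

/-- A map `ℤ_p → ℤ_p` which multiplies all distances by `‖a‖` and sends one point into the ball of radius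
`‖a‖` around `b` maps onto this ball. -/
theorem scale_surj {p : ℕ} [Fact p.Prime] {f : ℤ_[p] → ℤ_[p]} {a b : ℤ_[p]} (ha : a ≠ 0)
    (hf : ∀ x y, ‖f x - f y‖ = ‖a‖ * ‖x - y‖) {x0 : ℤ_[p]} (h0 : ‖f x0 - b‖ ≤ ‖a‖) {z : ℤ_[p]}
    (hz : ‖z - b‖ ≤ ‖a‖) : ∃ x, f x = z := by
  have h1 : ∀ x, ‖f x - b‖ ≤ ‖a‖ := by
    intro x
    have h2 : f x - b = (f x - f x0) + (f x0 - b) := by ring
    rw [h2]
    refine (PadicInt.nonarchimedean _ _).trans (max_le ?_ h0)
    rw [hf]
    exact mul_le_of_le_one_right (norm_nonneg _) (PadicInt.norm_le_one _)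
  choose g hg using fun x => dvd_of_norm_le ha (h1 x)
  have h3 : Isometry g := by
    refine Isometry.of_dist_eq fun x y => ?_
    have h4 : ‖a‖ * ‖g x - g y‖ = ‖a‖ * ‖x - y‖ := by
      rw [← hf x y, ← norm_mul, mul_sub, ← hg, ← hg]
      congr 1
      ring
    rw [dist_eq_norm, dist_eq_norm]
    exact mul_left_cancel₀ (norm_ne_zero_iff.2 ha) h4
  obtain ⟨t, ht⟩ := dvd_of_norm_le ha hz
  obtain ⟨x, hx⟩ := surjective_of_isometry h3 t
  refine ⟨x, ?_⟩
  have h5 := hg x
  rw [hx, ← ht] at h5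
  linear_combination h5

end Pool.Agent.Helper25.HN
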